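import Pool.Agent.Q283.EpsTwo
import Mathlib.Data.Set.Card
import Mathlib.Data.Nat.Prime.Basic
import Mathlib.Algebra.BigOperators.Associated

/-!
# MP_e3b57e: `p`-regular parts of elementary symmetric partitions
-/

namespace Pool.Agent.Results.MP_e3b57e_co.Regular

open Pool.Agent.Q283.EpsTwo

/-- The multiset of the products over all `k`-element sub-multisets (chosen with
multiplicity) of the multiset of parts: the partition `ε_k(λ)`. -/
def epsilon (k : ℕ) {n : ℕ} (lam : n.Partition) : Multiset ℕ :=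
  (lam.parts.powersetCard k).map Multiset.prod

/-- The image set `IP_k(n) = {ε_k(λ) : λ a partition of n with at least k parts}`. -/
def IP (k n : ℕ) : Set (Multiset ℕ) :=
  {mu | ∃ lam : n.Partition, k ≤ Multiset.card lam.parts ∧ mu = epsilon k lam}

/-- `r_{d,k}(n)`: the number of `d`-regular members of `IP_k(n)`. -/
noncomputable def r (d k n : ℕ) : ℕ := Set.ncard {mu ∈ IP k n | ∀ x ∈ mu, ¬ d ∣ x}

/-- the `p`-regular partitions of `n` with at least `k` parts -/
def reg (p k n : ℕ) : Set n.Partition :=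
  {lam | k ≤ Multiset.card lam.parts ∧ ∀ x ∈ lam.parts, ¬ p ∣ x}

theorem eps_two_mem {s : Multiset ℕ} {x y : ℕ} {t : Multiset ℕ} (h : s = x ::ₘ y ::ₘ t) :
    x * y ∈ eps 2 s := by
  unfold eps
  rw [Multiset.mem_map]
  refine ⟨{x, y}, ?_, by simp⟩
  rw [Multiset.mem_powersetCard]
  refine ⟨?_, by simp⟩
  rw [h]
  change x ::ₘ {y} ≤ _
  rw [Multiset.cons_le_cons_iff, Multiset.singleton_le]
  exact Multiset.mem_cons_self _ _

theorem regular_eps_two {p : ℕ} (hp : p.Prime) (s : Multiset ℕ) (hs : 2 ≤ Multiset.card s) :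
    (∀ x ∈ eps 2 s, ¬ p ∣ x) ↔ ∀ x ∈ s, ¬ p ∣ x := by
  constructor
  · intro h x hx hpx
    obtain ⟨t, rfl⟩ := Multiset.exists_cons_of_mem hx
    rw [Multiset.card_cons] at hs
    obtain ⟨y, hy⟩ := Multiset.card_pos_iff_exists_mem.mp (by omega : 0 < Multiset.card t)
    obtain ⟨u, rfl⟩ := Multiset.exists_cons_of_mem hy
    exact h _ (eps_two_mem rfl) (Dvd.dvd.mul_right hpx y)
  · intro h x hx hpx
    unfold eps at hx
    rw [Multiset.mem_map] at hx
    obtain ⟨u, hu, rfl⟩ := hx
    rw [Multiset.mem_powersetCard] at hu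
    obtain ⟨y, hy, hpy⟩ := Prime.exists_mem_multiset_dvd hp.prime hpx
    exact h y (Multiset.mem_of_le hu.1 hy) hpy

theorem r_one {p n : ℕ} : r p 1 n = (reg p 1 n).ncard := by
  unfold r
  have h : {mu ∈ IP 1 n | ∀ x ∈ mu, ¬ p ∣ x} = (fun lam : n.Partition => lam.parts) '' reg p 1 n := by
    ext mu
    constructor
    · rintro ⟨⟨lam, hl, rfl⟩, hreg⟩
      have he : epsilon 1 lam = lam.parts := eps_one _
      rw [he] at hreg ⊢
      exact ⟨lam, ⟨hl, hreg⟩, rfl⟩
    · rintro ⟨lam, ⟨hl, hreg⟩, rfl⟩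
      exact ⟨⟨lam, hl, (eps_one _).symm⟩, hreg⟩
  rw [h]
  exact Set.ncard_image_of_injective _ fun a b hab => Nat.Partition.ext hab

theorem r_two {p n : ℕ} (hp : p.Prime) : r p 2 n = (reg p 2 n).ncard := by
  unfold r
  have h : {mu ∈ IP 2 n | ∀ x ∈ mu, ¬ p ∣ x} =
      (fun lam : n.Partition => eps 2 lam.parts) '' reg p 2 n := by
    ext mu
    constructor
    · rintro ⟨⟨lam, hl, rfl⟩, hreg⟩
      have he : epsilon 2 lam = eps 2 lam.parts := rfl
      rw [he] at hreg ⊢
      exact ⟨lam, ⟨hl, (regular_eps_two hp _ hl).mp hreg⟩, rfl⟩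
    · rintro ⟨lam, ⟨hl, hreg⟩, rfl⟩
      exact ⟨⟨lam, hl, rfl⟩, (regular_eps_two hp _ hl).mpr hreg⟩
  rw [h]
  exact Set.ncard_image_of_injective _ fun a b hab => Nat.Partition.ext
    (eps_two_injective _ _ (fun _ hx => a.parts_pos hx) (fun _ hx => b.parts_pos hx)
      (a.parts_sum.trans b.parts_sum.symm) hab)

/-- **Q1.** For every prime `p` and every `n ≥ 0`, `r_{p,1}(n) - r_{p,2}(n)` is `0` if `p ∣ n`
and `1` otherwise. -/
theorem result (p : ℕ) (hp : p.Prime) (n : ℕ) :
    (r p 1 n : ℤ) - (r p 2 n : ℤ) = if p ∣ n then 0 else 1 := by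
  rw [r_one, r_two hp]
  have hunion : reg p 1 n = reg p 2 n ∪
      {lam : n.Partition | Multiset.card lam.parts = 1 ∧ ∀ x ∈ lam.parts, ¬ p ∣ x} := by
    ext lam
    simp only [reg, Set.mem_ofPred_eq, Set.mem_union]
    constructor
    · rintro ⟨h1, h2⟩
      rcases Nat.lt_or_ge (Multiset.card lam.parts) 2 with h | h
      · exact Or.inr ⟨by omega, h2⟩
      · exact Or.inl ⟨h, h2⟩
    · rintro (⟨h1, h2⟩ | ⟨h1, h2⟩)
      · exact ⟨by omega, h2⟩
      · exact ⟨by omega, h2⟩
  have hdisj : Disjoint (reg p 2 n)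
      {lam : n.Partition | Multiset.card lam.parts = 1 ∧ ∀ x ∈ lam.parts, ¬ p ∣ x} := by
    rw [Set.disjoint_left]
    rintro lam ⟨h1, -⟩ ⟨h2, -⟩
    omega
  rw [hunion, Set.ncard_union_eq hdisj (Set.toFinite _) (Set.toFinite _)]
  push_cast
  rw [add_sub_cancel_left]
  have hone : {lam : n.Partition | Multiset.card lam.parts = 1 ∧ ∀ x ∈ lam.parts, ¬ p ∣ x}.ncard =
      if p ∣ n then 0 else 1 := by
    split_ifs with hpn
    · rw [Set.ncard_eq_zero (Set.toFinite _), Set.eq_empty_iff_forall_notMem]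
      rintro lam ⟨h1, h2⟩
      obtain ⟨a, ha⟩ := Multiset.card_eq_one.mp h1
      have hsum := lam.parts_sum
      rw [ha, Multiset.sum_singleton] at hsum
      apply h2 a (by rw [ha]; exact Multiset.mem_singleton_self a)
      rw [hsum]
      exact hpn
    · have hn : n ≠ 0 := by
        rintro rfl
        exact hpn (dvd_zero p)
      rw [Set.ncard_eq_one]
      refine ⟨⟨{n}, fun hi => ?_, Multiset.sum_singleton n⟩, ?_⟩
      · rw [Multiset.mem_singleton] at hi
        omega
      · ext lam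
        simp only [Set.mem_ofPred_eq, Set.mem_singleton_iff]
        constructor
        · rintro ⟨h1, h2⟩
          obtain ⟨a, ha⟩ := Multiset.card_eq_one.mp h1
          have hsum := lam.parts_sum
          rw [ha, Multiset.sum_singleton] at hsum
          apply Nat.Partition.ext
          rw [ha, hsum]
        · rintro rfl
          refine ⟨Multiset.card_singleton n, fun x hx => ?_⟩
          rw [Multiset.mem_singleton] at hx
          rwa [hx]
  rw [hone]
  split_ifs <;> simp

end Pool.Agent.Results.MP_e3b57e_co.Regular
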